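import Mathlib
import Pool.Agent.L7h19.EA.Stm2
import Pool.Agent.L7h19.RP.Bez

/-!
# Project EA (helper55): the symbols `sq`, `rt`, and small lemmas about `L1`
-/

set_option autoImplicit false

namespace Pool.Agent.L7h55.EA

open Finset Polynomial Pool.Agent.L7h19.EA

variable {p : ℕ}

lemma js [Fact p.Prime] {n : ℤ} (h : ¬ (p : ℤ) ∣ n) : jacobiSym n p = 1 ∨ jacobiSym n p = -1 := by
  apply jacobiSym.eq_one_or_neg_one
  have hp : p.Prime := Fact.out
  have h1 : IsCoprime (p : ℤ) n :=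
    ((Nat.prime_iff_prime_int.1 hp).coprime_iff_not_dvd).2 h
  exact Int.isCoprime_iff_gcd_eq_one.1 h1.symm

lemma nd_mul [Fact p.Prime] {m n : ℤ} (hm : ¬ (p : ℤ) ∣ m) (hn : ¬ (p : ℤ) ∣ n) :
    ¬ (p : ℤ) ∣ m * n := fun h =>
  ((Nat.prime_iff_prime_int.1 (Fact.out : p.Prime)).dvd_or_dvd h).elim hm hn

lemma nd_pow [Fact p.Prime] {m : ℤ} (hm : ¬ (p : ℤ) ∣ m) (k : ℕ) : ¬ (p : ℤ) ∣ m ^ k := fun h =>
  hm ((Nat.prime_iff_prime_int.1 (Fact.out : p.Prime)).dvd_of_dvd_pow h)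

lemma nd_two [Fact p.Prime] (h2 : p ≠ 2) : ¬ (p : ℤ) ∣ 2 := by
  intro h
  have h1 : p ∣ 2 := by exact_mod_cast h
  exact h2 ((Nat.prime_dvd_prime_iff_eq Fact.out Nat.prime_two).1 h1)

lemma sq_mul [Fact p.Prime] {m n : ℤ} (hm : ¬ (p : ℤ) ∣ m) (hn : ¬ (p : ℤ) ∣ n) :
    (!sq p (m * n)) = xor (!sq p m) (!sq p n) := by
  unfold Pool.Agent.L7h19.EA.sq
  rw [jacobiSym.mul_left]
  rcases js hm with h1 | h1 <;> rcases js hn with h2 | h2 <;> rw [h1, h2] <;> decide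

lemma sq_sq [Fact p.Prime] {m : ℤ} (hm : ¬ (p : ℤ) ∣ m) : sq p (m ^ 2) = true := by
  unfold Pool.Agent.L7h19.EA.sq
  rw [jacobiSym.pow_left]
  rcases js hm with h1 | h1 <;> rw [h1] <;> decide

lemma sq_congr {m n : ℤ} (h : m ≡ n [ZMOD p]) : sq p m = sq p n := by
  unfold Pool.Agent.L7h19.EA.sq
  rw [jacobiSym.mod_left' h]

lemma sq_mul_sq [Fact p.Prime] {m n : ℤ} (hm : ¬ (p : ℤ) ∣ m) :
    sq p (m ^ 2 * n) = sq p n := by
  unfold Pool.Agent.L7h19.EA.sq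
  rw [jacobiSym.mul_left, jacobiSym.pow_left]
  rcases js hm with h1 | h1 <;> rw [h1] <;> simp

lemma sq_neg_one [Fact p.Prime] (h2 : p ≠ 2) : (!sq p (-1)) = nm p := by
  have hp : p.Prime := Fact.out
  have ho : p % 2 = 1 := hp.eq_two_or_odd.resolve_left h2
  unfold Pool.Agent.L7h19.EA.sq nm
  rw [jacobiSym.at_neg_one (Nat.odd_iff.2 ho), ZMod.χ₄_nat_eq_if_mod_four]
  have h4 : p % 4 = 1 ∨ p % 4 = 3 := by omega
  rcases h4 with h | h <;> simp [h, ho]

lemma sq_neg [Fact p.Prime] (h2 : p ≠ 2) {m : ℤ} (hm : ¬ (p : ℤ) ∣ m) :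
    (!sq p (-m)) = xor (!sq p m) (nm p) := by
  have h1 : ¬ (p : ℤ) ∣ (-1 : ℤ) := by
    rw [dvd_neg]
    intro h
    have : p ∣ 1 := by exact_mod_cast h
    exact (Fact.out : p.Prime).one_lt.ne' (Nat.dvd_one.1 this)
  rw [← sq_neg_one h2, ← sq_mul hm h1]
  congr 2
  ring

lemma L1_sign {p : ℕ} [Fact p.Prime] {a b : ℤ} {c r s s' : Bool} (h : L1 p a b c r s)
    (hs : c = true → r = true → s = s') : L1 p a b c r s' := by
  refine ⟨h.1, h.2.1, fun x hx ho hr hc => ?_⟩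
  rw [← hs hc hr]
  exact h.2.2 x hx ho hr hc

/-- the mark `rt` is the symbol of any root -/
lemma rt_eq [Fact p.Prime] {A B w : ℤ} (hB0 : ¬ (p : ℤ) ∣ B) (hB : sq p B = true)
    (hw : (p : ℤ) ∣ w ^ 2 + A * w + B) : rt p A B = !sq p w := by
  have hp : p.Prime := Fact.out
  have hpi := Nat.prime_iff_prime_int.1 hp
  have hw0 : ¬ (p : ℤ) ∣ w := by
    intro h
    apply hB0
    have h1 : (p : ℤ) ∣ w ^ 2 + A * w := by
      have : w ^ 2 + A * w = w * (w + A) := by ring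
      rw [this]
      exact h.mul_right _
    exact (dvd_add_right h1).1 hw
  rcases js hw0 with h1 | h1
  · have h2 : sq p w = true := by unfold Pool.Agent.L7h19.EA.sq; simp [h1]
    rw [h2]
    unfold rt
    simp only [Bool.not_true, decide_eq_false_iff_not]
    rintro ⟨u, -, hu, hj⟩
    have hB1 : jacobiSym B p = 1 := by
      unfold Pool.Agent.L7h19.EA.sq at hB
      simpa using hB
    have h3 : (p : ℤ) ∣ ((u : ℤ) - w) * (u + w + A) := by
      have : ((u : ℤ) - w) * (u + w + A) = ((u : ℤ) ^ 2 + A * u + B) - (w ^ 2 + A * w + B) := by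
        ring
      rw [this]
      exact dvd_sub hu hw
    rcases hpi.dvd_or_dvd h3 with h4 | h4
    · have h5 : w ≡ (u : ℤ) [ZMOD p] := (Int.modEq_iff_dvd).2 h4
      rw [jacobiSym.mod_left' h5, hj] at h1
      omega
    · have h5 : (p : ℤ) ∣ (u : ℤ) * w - B := by
        have : (u : ℤ) * w - B = (u + w + A) * w - (w ^ 2 + A * w + B) := by ring
        rw [this]
        exact dvd_sub (h4.mul_right _) hw
      have h6 : B ≡ (u : ℤ) * w [ZMOD p] := (Int.modEq_iff_dvd).2 h5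
      rw [jacobiSym.mod_left' h6, jacobiSym.mul_left, hj, h1] at hB1
      omega
  · have h2 : sq p w = false := by unfold Pool.Agent.L7h19.EA.sq; simp [h1]
    rw [h2]
    unfold rt
    simp only [Bool.not_false, decide_eq_true_eq]
    have hpz : (0 : ℤ) < p := by exact_mod_cast hp.pos
    have hm0 := Int.emod_nonneg w hpz.ne'
    have hml := Int.emod_lt_of_pos w hpz
    have hc : (((w % p).toNat : ℕ) : ℤ) = w % p := Int.toNat_of_nonneg hm0
    have hmod : (((w % p).toNat : ℕ) : ℤ) ≡ w [ZMOD p] := by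
      rw [hc]
      exact Int.mod_modEq w p
    refine ⟨(w % p).toNat, mem_range.2 ?_, ?_, ?_⟩
    · omega
    · have h3 : (((w % p).toNat : ℕ) : ℤ) ^ 2 + A * (((w % p).toNat : ℕ) : ℤ) + B ≡
          w ^ 2 + A * w + B [ZMOD p] :=
        ((hmod.pow 2).add (hmod.mul_left A)).add_right B
      exact (Int.modEq_zero_iff_dvd).1 (h3.trans ((Int.modEq_zero_iff_dvd).2 hw))
    · rw [jacobiSym.mod_left' hmod, h1]

/-- a square modulo `p` -/
lemma exists_sqrt [Fact p.Prime] {n : ℤ} (h : sq p n = true) : ∃ g : ℤ, (p : ℤ) ∣ g ^ 2 - n := by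
  have hp : p.Prime := Fact.out
  have h1 : jacobiSym n p = 1 := by
    unfold Pool.Agent.L7h19.EA.sq at h
    simpa using h
  rw [← jacobiSym.legendreSym.to_jacobiSym] at h1
  have hn0 : (n : ZMod p) ≠ 0 := by
    intro h0
    rw [(legendreSym.eq_zero_iff p n).2 h0] at h1
    omega
  obtain ⟨r, hr⟩ := (legendreSym.eq_one_iff p hn0).1 h1
  obtain ⟨g, rfl⟩ := ZMod.intCast_surjective r
  refine ⟨g, ?_⟩
  have h2 : ((g ^ 2 - n : ℤ) : ZMod p) = 0 := by
    push_cast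
    rw [hr]
    ring
  exact (ZMod.intCast_zmod_eq_zero_iff_dvd _ _).1 h2

/-- a root of `u² + A u + B` if the discriminant is a square -/
lemma exists_root [Fact p.Prime] (h2 : p ≠ 2) {A B : ℤ} (h : sq p (A ^ 2 - 4 * B) = true) :
    ∃ w : ℤ, (p : ℤ) ∣ w ^ 2 + A * w + B := by
  have hp : p.Prime := Fact.out
  have hpi := Nat.prime_iff_prime_int.1 hp
  obtain ⟨g, hg⟩ := exists_sqrt h
  have hc : IsCoprime (2 : ℤ) (p : ℤ) :=
    ((hpi.coprime_iff_not_dvd).2 (nd_two h2)).symm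
  obtain ⟨x, y, hxy⟩ := hc
  -- x * 2 + y * p = 1
  refine ⟨x * (g - A), ?_⟩
  have h4 : (p : ℤ) ∣ 4 * ((x * (g - A)) ^ 2 + A * (x * (g - A)) + B) := by
    have hx : x * 2 = 1 - y * p := by linarith
    have : 4 * ((x * (g - A)) ^ 2 + A * (x * (g - A)) + B) =
        (x * 2) ^ 2 * (g - A) ^ 2 + 2 * A * (x * 2) * (g - A) + 4 * B := by ring
    rw [this, hx]
    have : (1 - y * p) ^ 2 * (g - A) ^ 2 + 2 * A * (1 - y * p) * (g - A) + 4 * B =
        (g ^ 2 - (A ^ 2 - 4 * B)) +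
          p * ((-2 * y + y ^ 2 * p) * (g - A) ^ 2 - 2 * A * y * (g - A)) := by ring
    rw [this]
    exact dvd_add hg (dvd_mul_right _ _)
  have h4' : ¬ (p : ℤ) ∣ 4 := by
    have := nd_pow (nd_two h2) 2
    norm_num at this
    exact this
  exact (hpi.dvd_or_dvd h4).resolve_left h4'

end Pool.Agent.L7h55.EA
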