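import Mathlib
import Pool.Agent.L7h55.EA.Sq

/-!
# Project EA (helper55): the part P6
-/

set_option autoImplicit false

namespace Pool.Agent.L7h55.EA

open Finset Polynomial Pool.Agent.L7h19.EA
open Pool.Agent.L7h19.RP (large_nd)

lemma rt_imp {p : ℕ} {A A' B B' : ℤ} (hA : A ≡ A' [ZMOD p]) (hB : B ≡ B' [ZMOD p])
    (h : ∃ u ∈ range p, (p : ℤ) ∣ (u : ℤ) ^ 2 + A * u + B ∧ jacobiSym (u : ℤ) p = -1) :
    ∃ u ∈ range p, (p : ℤ) ∣ (u : ℤ) ^ 2 + A' * u + B' ∧ jacobiSym (u : ℤ) p = -1 := by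
  obtain ⟨u, hu, h1, h2⟩ := h
  refine ⟨u, hu, ?_, h2⟩
  have h3 : (u : ℤ) ^ 2 + A * u + B ≡ (u : ℤ) ^ 2 + A' * u + B' [ZMOD p] :=
    ((Int.ModEq.refl ((u : ℤ) ^ 2)).add (hA.mul_right (u : ℤ))).add hB
  exact (Int.modEq_zero_iff_dvd).1 (h3.symm.trans ((Int.modEq_zero_iff_dvd).2 h1))

lemma rt_congr {p : ℕ} {A A' B B' : ℤ} (hA : A ≡ A' [ZMOD p]) (hB : B ≡ B' [ZMOD p]) :
    rt p A B = rt p A' B' := by
  unfold rt
  exact decide_eq_decide.2 ⟨rt_imp hA hB, rt_imp hA.symm hB.symm⟩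

lemma eval_modEq' (g : ℤ[X]) {p : ℕ} {t t' : ℤ} (h : t ≡ t' [ZMOD p]) :
    g.eval t ≡ g.eval t' [ZMOD p] := by
  rw [Int.modEq_iff_dvd] at h ⊢
  exact h.trans (sub_dvd_eval_sub t' t g)

/-- a root is a unit -/
lemma root_nd {p : ℕ} [Fact p.Prime] {A B w : ℤ} (hB0 : ¬ (p : ℤ) ∣ B)
    (hw : (p : ℤ) ∣ w ^ 2 + A * w + B) : ¬ (p : ℤ) ∣ w := by
  intro h
  apply hB0
  have h1 : (p : ℤ) ∣ w ^ 2 + A * w := by
    have : w ^ 2 + A * w = w * (w + A) := by ring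
    rw [this]
    exact h.mul_right _
  exact (dvd_add_right h1).1 hw

/-- the sign of the scaled curve -/
lemma rt_scale {p : ℕ} [Fact p.Prime] (h2 : p ≠ 2) {A D φ : ℤ} (hφ : ¬ (p : ℤ) ∣ φ)
    (hD0 : ¬ (p : ℤ) ∣ D) (hD : sq p D = true) (hC : sq p (A ^ 2 - 4 * D) = true) :
    rt p (φ * A) (φ ^ 2 * D) = xor (rt p A D) (!sq p φ) := by
  obtain ⟨w, hw⟩ := exists_root h2 hC
  have hw0 := root_nd hD0 hw
  rw [rt_eq hD0 hD hw, rt_eq (w := φ * w) (nd_mul (nd_pow hφ 2) hD0)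
    (by rw [sq_mul_sq hφ]; exact hD) (by
      have : (φ * w) ^ 2 + φ * A * (φ * w) + φ ^ 2 * D = φ ^ 2 * (w ^ 2 + A * w + D) := by ring
      rw [this]
      exact hw.mul_left _), sq_mul hφ hw0, Bool.xor_comm]

/-- the sign of the dual curve -/
lemma rt_dual {p : ℕ} [Fact p.Prime] (h2 : p ≠ 2) {A D φ : ℤ} (hφ : ¬ (p : ℤ) ∣ φ)
    (hD0 : ¬ (p : ℤ) ∣ D) (hC0 : ¬ (p : ℤ) ∣ A ^ 2 - 4 * D) (hD : sq p D = true)
    (hC : sq p (A ^ 2 - 4 * D) = true) :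
    rt p (-2 * (φ * A)) (φ ^ 2 * (A ^ 2 - 4 * D)) = xor (xor (rt p A D) (!sq p φ)) (nm p) := by
  have hpi := Nat.prime_iff_prime_int.1 (Fact.out : p.Prime)
  obtain ⟨w, hw⟩ := exists_root h2 hC
  have hw0 := root_nd hD0 hw
  obtain ⟨β, hβ, hwβ⟩ : ∃ β : ℤ, (p : ℤ) ∣ β ^ 2 - D ∧ ¬ (p : ℤ) ∣ w - β := by
    obtain ⟨β, hβ⟩ := exists_sqrt hD
    by_cases h : (p : ℤ) ∣ w - β
    · refine ⟨-β, by simpa using hβ, fun h' => ?_⟩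
      have h3 : (p : ℤ) ∣ 2 * β := by
        have := dvd_sub h' h
        have e : w - -β - (w - β) = 2 * β := by ring
        rwa [e] at this
      have h4 : (p : ℤ) ∣ β := (hpi.dvd_or_dvd h3).resolve_left (nd_two h2)
      apply hD0
      have h5 : (p : ℤ) ∣ β ^ 2 - (β ^ 2 - D) := dvd_sub (h4.pow (by norm_num)) hβ
      simpa using h5
    · exact ⟨β, hβ, h⟩
  have hUw : (A + 2 * β) * w ≡ -(w - β) ^ 2 [ZMOD p] := by
    rw [Int.modEq_iff_dvd]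
    have e : -(w - β) ^ 2 - (A + 2 * β) * w = -(w ^ 2 + A * w + D) - (β ^ 2 - D) := by ring
    rw [e]
    exact dvd_sub (dvd_neg.2 hw) hβ
  have hsq0 : ¬ (p : ℤ) ∣ -(w - β) ^ 2 := by
    rw [dvd_neg]
    exact nd_pow hwβ 2
  have hU0 : ¬ (p : ℤ) ∣ A + 2 * β := by
    intro h
    apply hsq0
    have h3 : (p : ℤ) ∣ (A + 2 * β) * w := h.mul_right _
    exact (Int.modEq_zero_iff_dvd).1 (hUw.symm.trans ((Int.modEq_zero_iff_dvd).2 h3))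
  have e1 : xor (!sq p (A + 2 * β)) (!sq p w) = nm p := by
    rw [← sq_mul hU0 hw0, sq_congr hUw, sq_neg h2 (nd_pow hwβ 2), sq_sq hwβ]
    simp
  rw [rt_eq hD0 hD hw, rt_eq (w := φ * (A + 2 * β)) (nd_mul (nd_pow hφ 2) hC0)
    (by rw [sq_mul_sq hφ]; exact hC) (by
      have : (φ * (A + 2 * β)) ^ 2 + -2 * (φ * A) * (φ * (A + 2 * β)) +
        φ ^ 2 * (A ^ 2 - 4 * D) = (4 * φ ^ 2) * (β ^ 2 - D) := by ring
      rw [this]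
      exact hβ.mul_left _), sq_mul hφ hU0, ← e1]
  generalize (!sq p φ) = x
  generalize (!sq p w) = y
  generalize (!sq p (A + 2 * β)) = z
  revert x y z
  decide

theorem s_P6 (h6 : S_N6) : S_P6 := by
  rintro a b f ⟨h0, hf, hd⟩ ⟨a1, rfl⟩ ⟨b1, rfl⟩ hb3 hc3
  have hb1 : ¬ f ∣ b1 := by
    rintro ⟨g, rfl⟩
    exact hb3 ⟨g, by ring⟩
  have hc1 : ¬ f ∣ a1 ^ 2 - 4 * b1 := by
    rintro ⟨g, hg⟩
    apply hc3
    exact ⟨g, by linear_combination f ^ 2 * hg⟩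
  obtain ⟨B1, hB1⟩ := large_nd hf hd hb1
  obtain ⟨B2, hB2⟩ := large_nd hf hd hc1
  refine ⟨none, none, a1 ^ 2 - 4 * b1, b1, fun p t => rt p (a1.eval t) (b1.eval t),
    max (max B1 B2) 2, hc1, hb1, ?_, ?_⟩
  · intro p t t' h
    show rt p _ _ = rt p _ _
    exact rt_congr (eval_modEq' a1 h) (eval_modEq' b1 h)
  · intro p _ t hp hft hft2 hne
    have hpp : p.Prime := Fact.out
    have hpi := Nat.prime_iff_prime_int.1 hpp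
    have hp0 : (p : ℤ) ≠ 0 := hpi.ne_zero
    have hpp2 : (p : ℤ) ^ 2 ≠ 0 := pow_ne_zero 2 hp0
    have hp2 : p ≠ 2 := by
      have := lt_of_le_of_lt (le_max_right (max B1 B2) 2) hp
      omega
    have hm := lt_of_le_of_lt (le_max_left (max B1 B2) 2) hp
    have hb1t : ¬ (p : ℤ) ∣ b1.eval t := hB1 p (lt_of_le_of_lt (le_max_left B1 B2) hm) t hft
    have hc1t : ¬ (p : ℤ) ∣ (a1 ^ 2 - 4 * b1).eval t :=
      hB2 p (lt_of_le_of_lt (le_max_right B1 B2) hm) t hft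
    have ec : (a1 ^ 2 - 4 * b1).eval t = (a1.eval t) ^ 2 - 4 * b1.eval t := by
      simp [eval_sub, eval_pow, eval_mul]
    rw [ec] at hc1t
    obtain ⟨φ, hφ⟩ := hft
    have hφp : ¬ (p : ℤ) ∣ φ := by
      rintro ⟨m, rfl⟩
      exact hft2 ⟨m, by rw [hφ]; ring⟩
    have e1 : f.eval t / (p : ℤ) = φ := by rw [hφ, Int.mul_ediv_cancel_left _ hp0]
    show Loc p ((f * a1).eval t) ((f ^ 2 * b1).eval t) (sq p ((a1 ^ 2 - 4 * b1).eval t))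
      (sq p (b1.eval t)) (xor (rt p (a1.eval t) (b1.eval t)) (!sq p (f.eval t / p)))
    rw [ec, e1, eval_mul, eval_mul, eval_pow, hφ]
    generalize a1.eval t = A at *
    generalize b1.eval t = D at *
    have h4 : ¬ (p : ℤ) ∣ 4 := by
      have := nd_pow (nd_two hp2) 2
      norm_num at this
      exact this
    have key : ∀ m : ℤ, ¬ (p : ℤ) ∣ m → ¬ (p : ℤ) ^ 3 ∣ (p : ℤ) ^ 2 * m := by
      rintro m hm ⟨k, hk⟩
      apply hm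
      refine ⟨k, ?_⟩
      have : (p : ℤ) ^ 2 * m = p ^ 2 * (p * k) := by linear_combination hk
      exact mul_left_cancel₀ hpp2 this
    have eb : ((p : ℤ) * φ) ^ 2 * D = p ^ 2 * (φ ^ 2 * D) := by ring
    have ea : (p : ℤ) * φ * A = p * (φ * A) := by ring
    have ecc : ((p : ℤ) * φ * A) ^ 2 - 4 * (((p : ℤ) * φ) ^ 2 * D) =
        p ^ 2 * (φ ^ 2 * (A ^ 2 - 4 * D)) := by ring
    have ebb : (-2 * ((p : ℤ) * φ * A)) ^ 2 - 4 * (p ^ 2 * (φ ^ 2 * (A ^ 2 - 4 * D))) =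
        p ^ 2 * ((4 * φ) ^ 2 * D) := by ring
    have eaa : -2 * ((p : ℤ) * φ * A) = p * (-2 * (φ * A)) := by ring
    have hDφ : ¬ (p : ℤ) ∣ φ ^ 2 * D := nd_mul (nd_pow hφp 2) hb1t
    have hCφ : ¬ (p : ℤ) ∣ φ ^ 2 * (A ^ 2 - 4 * D) := nd_mul (nd_pow hφp 2) hc1t
    have hDD : ¬ (p : ℤ) ∣ (4 * φ) ^ 2 * D := nd_mul (nd_pow (nd_mul h4 hφp) 2) hb1t
    refine ⟨?_, ?_⟩
    · have h := h6 p ((p : ℤ) * φ * A) (((p : ℤ) * φ) ^ 2 * D) hp2 ⟨φ * A, by ring⟩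
        ⟨φ ^ 2 * D, by ring⟩ (by rw [eb]; exact key _ hDφ) (by rw [ecc]; exact key _ hCφ)
      have d1 : (((p : ℤ) * φ * A) ^ 2 - 4 * (((p : ℤ) * φ) ^ 2 * D)) / (p : ℤ) ^ 2 =
          φ ^ 2 * (A ^ 2 - 4 * D) := by rw [ecc, Int.mul_ediv_cancel_left _ hpp2]
      have d2 : (((p : ℤ) * φ) ^ 2 * D) / (p : ℤ) ^ 2 = φ ^ 2 * D := by
        rw [eb, Int.mul_ediv_cancel_left _ hpp2]
      have d3 : ((p : ℤ) * φ * A) / (p : ℤ) = φ * A := by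
        rw [ea, Int.mul_ediv_cancel_left _ hp0]
      rw [d1, d2, d3, sq_mul_sq hφp, sq_mul_sq hφp] at h
      exact L1_sign h fun hC hD => rt_scale hp2 hφp hb1t hD hC
    · rw [ecc]
      have h := h6 p (-2 * ((p : ℤ) * φ * A)) ((p : ℤ) ^ 2 * (φ ^ 2 * (A ^ 2 - 4 * D))) hp2
        ⟨-2 * (φ * A), by ring⟩ ⟨_, rfl⟩ (key _ hCφ) (by rw [ebb]; exact key _ hDD)
      have d1 : ((-2 * ((p : ℤ) * φ * A)) ^ 2 - 4 * ((p : ℤ) ^ 2 * (φ ^ 2 * (A ^ 2 - 4 * D)))) /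
          (p : ℤ) ^ 2 = (4 * φ) ^ 2 * D := by rw [ebb, Int.mul_ediv_cancel_left _ hpp2]
      have d2 : ((p : ℤ) ^ 2 * (φ ^ 2 * (A ^ 2 - 4 * D))) / (p : ℤ) ^ 2 =
          φ ^ 2 * (A ^ 2 - 4 * D) := by rw [Int.mul_ediv_cancel_left _ hpp2]
      have d3 : (-2 * ((p : ℤ) * φ * A)) / (p : ℤ) = -2 * (φ * A) := by
        rw [eaa, Int.mul_ediv_cancel_left _ hp0]
      rw [d1, d2, d3, sq_mul_sq (nd_mul h4 hφp), sq_mul_sq hφp] at h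
      exact L1_sign h fun hD hC => rt_dual hp2 hφp hb1t hc1t hD hC

end Pool.Agent.L7h55.EA
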