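import Mathlib
import Pool.Agent.L7h55.EA.Sq

/-!
# Project EA (helper55): the parts P7, P8
-/

set_option autoImplicit false

namespace Pool.Agent.L7h55.EA

open Finset Polynomial Pool.Agent.L7h19.EA
open Pool.Agent.L7h19.RP (large_nd)

lemma eval_modEq (g : ℤ[X]) {p : ℕ} {t t' : ℤ} (h : t ≡ t' [ZMOD p]) :
    g.eval t ≡ g.eval t' [ZMOD p] := by
  rw [Int.modEq_iff_dvd] at h ⊢
  exact h.trans (sub_dvd_eval_sub t' t g)

lemma nd_one_poly {f : ℤ[X]} (hf : Irreducible f) : ¬ f ∣ 1 := fun h =>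
  hf.not_isUnit (isUnit_of_dvd_one h)

theorem s_P7 (h7 : S_N7) : S_P7 := by
  rintro a b f ⟨h0, hf, hd⟩ ⟨a1, rfl⟩ ⟨b1, rfl⟩ hb2
  have hb1 : ¬ f ∣ b1 := by
    rintro ⟨g, rfl⟩
    exact hb2 ⟨g, by ring⟩
  obtain ⟨B, hB⟩ := large_nd hf hd hb1
  refine ⟨some true, some true, 1, 1, fun p t => !sq p (b1.eval t), max B 2, nd_one_poly hf,
    nd_one_poly hf, ?_, ?_⟩
  · intro p t t' h
    show (!sq p (b1.eval t)) = !sq p (b1.eval t')
    rw [sq_congr (eval_modEq b1 h)]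
  · intro p _ t hp hft hft2 hne
    have hpp : p.Prime := Fact.out
    have hpi := Nat.prime_iff_prime_int.1 hpp
    have hp0 : (p : ℤ) ≠ 0 := hpi.ne_zero
    have hp2 : p ≠ 2 := by
      have := lt_of_le_of_lt (le_max_right B 2) hp
      omega
    have hb1t : ¬ (p : ℤ) ∣ b1.eval t := hB p (lt_of_le_of_lt (le_max_left B 2) hp) t hft
    obtain ⟨φ, hφ⟩ := hft
    have hφp : ¬ (p : ℤ) ∣ φ := by
      rintro ⟨m, rfl⟩
      exact hft2 ⟨m, by rw [hφ]; ring⟩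
    have e1 : f.eval t / (p : ℤ) = φ := by rw [hφ, Int.mul_ediv_cancel_left _ hp0]
    show Loc p ((f * a1).eval t) ((f * b1).eval t) true true
      (xor (!sq p (b1.eval t)) (!sq p (f.eval t / p)))
    rw [e1, eval_mul, eval_mul, hφ]
    set A := a1.eval t
    set D := b1.eval t
    have hDφ : ¬ (p : ℤ) ∣ D * φ := nd_mul hb1t hφp
    have h4 : ¬ (p : ℤ) ∣ 4 := by
      have := nd_pow (nd_two hp2) 2
      norm_num at this
      exact this
    have hs := sq_mul hb1t hφp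
    refine ⟨?_, ?_⟩
    · have h := h7 p (p * φ * A) (p * φ * D) hp2 ⟨φ * A, by ring⟩ ⟨φ * D, by ring⟩ (by
        rintro ⟨m, hm⟩
        apply hDφ
        refine ⟨m, ?_⟩
        have : (p : ℤ) * (D * φ) = p * (p * m) := by linear_combination hm
        exact mul_left_cancel₀ hp0 this)
      have e2 : (p : ℤ) * φ * D / p = D * φ := by
        rw [show (p : ℤ) * φ * D = p * (D * φ) by ring, Int.mul_ediv_cancel_left _ hp0]
      rw [e2, hs] at h
      exact h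
    · have hc : (p * φ * A) ^ 2 - 4 * (p * φ * D) = (p : ℤ) * (p * (φ ^ 2 * A ^ 2) - 4 * (D * φ)) := by
        ring
      have hm1 : ¬ (p : ℤ) ∣ (p * (φ ^ 2 * A ^ 2) - 4 * (D * φ)) := by
        intro h
        have h1 : (p : ℤ) ∣ 4 * (D * φ) := by
          have := dvd_sub (dvd_mul_right (p : ℤ) (φ ^ 2 * A ^ 2)) h
          simpa using this
        exact nd_mul h4 hDφ h1
      rw [hc]
      have h := h7 p (-2 * (p * φ * A)) ((p : ℤ) * (p * (φ ^ 2 * A ^ 2) - 4 * (D * φ))) hp2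
        ⟨-2 * φ * A, by ring⟩ ⟨_, rfl⟩ (by
          rintro ⟨m, hm⟩
          apply hm1
          refine ⟨m, ?_⟩
          have : (p : ℤ) * (p * (φ ^ 2 * A ^ 2) - 4 * (D * φ)) = p * (p * m) := by
            linear_combination hm
          exact mul_left_cancel₀ hp0 this)
      rw [Int.mul_ediv_cancel_left _ hp0] at h
      have e3 : sq p (p * (φ ^ 2 * A ^ 2) - 4 * (D * φ)) = sq p (-(D * φ)) := by
        have c1 : p * (φ ^ 2 * A ^ 2) - 4 * (D * φ) ≡ 2 ^ 2 * (-(D * φ)) [ZMOD p] := by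
          rw [Int.modEq_iff_dvd]
          exact ⟨-(φ ^ 2 * A ^ 2), by ring⟩
        rw [sq_congr c1, sq_mul_sq (nd_two hp2)]
      rw [e3, sq_neg hp2 hDφ, hs] at h
      exact h

theorem s_P8 (h8 : S_N8) : S_P8 := by
  rintro a b f ⟨h0, hf, hd⟩ ⟨a1, rfl⟩ ⟨b1, rfl⟩ hb2
  have hb1 : ¬ f ∣ b1 := by
    rintro ⟨g, rfl⟩
    exact hb2 ⟨g, by ring⟩
  obtain ⟨B, hB⟩ := large_nd hf hd hb1
  refine ⟨some true, some true, 1, 1, fun p t => !sq p (b1.eval t), max B 2, nd_one_poly hf,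
    nd_one_poly hf, ?_, ?_⟩
  · intro p t t' h
    show (!sq p (b1.eval t)) = !sq p (b1.eval t')
    rw [sq_congr (eval_modEq b1 h)]
  · intro p _ t hp hft hft2 hne
    have hpp : p.Prime := Fact.out
    have hpi := Nat.prime_iff_prime_int.1 hpp
    have hp0 : (p : ℤ) ≠ 0 := hpi.ne_zero
    have hp3 : (p : ℤ) ^ 3 ≠ 0 := pow_ne_zero 3 hp0
    have hp2 : p ≠ 2 := by
      have := lt_of_le_of_lt (le_max_right B 2) hp
      omega
    have hb1t : ¬ (p : ℤ) ∣ b1.eval t := hB p (lt_of_le_of_lt (le_max_left B 2) hp) t hft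
    obtain ⟨φ, hφ⟩ := hft
    have hφp : ¬ (p : ℤ) ∣ φ := by
      rintro ⟨m, rfl⟩
      exact hft2 ⟨m, by rw [hφ]; ring⟩
    have e1 : f.eval t / (p : ℤ) = φ := by rw [hφ, Int.mul_ediv_cancel_left _ hp0]
    show Loc p ((f ^ 2 * a1).eval t) ((f ^ 3 * b1).eval t) true true
      (xor (!sq p (b1.eval t)) (!sq p (f.eval t / p)))
    rw [e1, eval_mul, eval_mul, eval_pow, eval_pow, hφ]
    set A := a1.eval t
    set D := b1.eval t
    have hDφ : ¬ (p : ℤ) ∣ D * φ := nd_mul hb1t hφp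
    have hDφ3 : ¬ (p : ℤ) ∣ φ ^ 2 * (D * φ) := nd_mul (nd_pow hφp 2) hDφ
    have h4 : ¬ (p : ℤ) ∣ 4 := by
      have := nd_pow (nd_two hp2) 2
      norm_num at this
      exact this
    have hs := sq_mul hb1t hφp
    refine ⟨?_, ?_⟩
    · have h := h8 p ((p * φ) ^ 2 * A) ((p * φ) ^ 3 * D) hp2 ⟨φ ^ 2 * A, by ring⟩
        ⟨φ ^ 3 * D, by ring⟩ (by
        rintro ⟨m, hm⟩
        apply hDφ3
        refine ⟨m, ?_⟩
        have : (p : ℤ) ^ 3 * (φ ^ 2 * (D * φ)) = p ^ 3 * (p * m) := by linear_combination hm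
        exact mul_left_cancel₀ hp3 this)
      have e2 : ((p : ℤ) * φ) ^ 3 * D / p ^ 3 = φ ^ 2 * (D * φ) := by
        rw [show ((p : ℤ) * φ) ^ 3 * D = p ^ 3 * (φ ^ 2 * (D * φ)) by ring,
          Int.mul_ediv_cancel_left _ hp3]
      rw [e2, sq_mul_sq hφp, hs] at h
      exact h
    · have hc : ((p * φ) ^ 2 * A) ^ 2 - 4 * ((p * φ) ^ 3 * D) =
          (p : ℤ) ^ 3 * (p * (φ ^ 4 * A ^ 2) - 4 * (φ ^ 2 * (D * φ))) := by
        ring
      have hm1 : ¬ (p : ℤ) ∣ (p * (φ ^ 4 * A ^ 2) - 4 * (φ ^ 2 * (D * φ))) := by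
        intro h
        have h1 : (p : ℤ) ∣ 4 * (φ ^ 2 * (D * φ)) := by
          have := dvd_sub (dvd_mul_right (p : ℤ) (φ ^ 4 * A ^ 2)) h
          simpa using this
        exact nd_mul h4 hDφ3 h1
      rw [hc]
      have h := h8 p (-2 * ((p * φ) ^ 2 * A))
        ((p : ℤ) ^ 3 * (p * (φ ^ 4 * A ^ 2) - 4 * (φ ^ 2 * (D * φ)))) hp2
        ⟨-2 * φ ^ 2 * A, by ring⟩ ⟨_, rfl⟩ (by
          rintro ⟨m, hm⟩
          apply hm1
          refine ⟨m, ?_⟩
          have : (p : ℤ) ^ 3 * (p * (φ ^ 4 * A ^ 2) - 4 * (φ ^ 2 * (D * φ))) = p ^ 3 * (p * m) := by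
            linear_combination hm
          exact mul_left_cancel₀ hp3 this)
      rw [Int.mul_ediv_cancel_left _ hp3] at h
      have e3 : sq p (p * (φ ^ 4 * A ^ 2) - 4 * (φ ^ 2 * (D * φ))) = sq p (-(D * φ)) := by
        have c1 : p * (φ ^ 4 * A ^ 2) - 4 * (φ ^ 2 * (D * φ)) ≡ (2 * φ) ^ 2 * (-(D * φ)) [ZMOD p] := by
          rw [Int.modEq_iff_dvd]
          exact ⟨-(φ ^ 4 * A ^ 2), by ring⟩
        rw [sq_congr c1, sq_mul_sq (nd_mul (nd_two hp2) hφp)]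
      rw [e3, sq_neg hp2 hDφ, hs] at h
      exact h

end Pool.Agent.L7h55.EA
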