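import Mathlib
import Pool.Agent.L7h19.EA.Stm2

/-!
# Project EA (helper55): the part PR (reduction to the eight cases)
-/

set_option autoImplicit false

namespace Pool.Agent.L7h55.EA

open Finset Polynomial Pool.Agent.L7h19.EA

lemma polD_scale (hS : S_SCL) {a b f : ℤ[X]} (h : PolD a b f) :
    PolD (f ^ 2 * a) (f ^ 4 * b) f := by
  obtain ⟨R1, R2, K1, K2, base, z0, k1, k2, hb, h⟩ := h
  refine ⟨R1, R2, K1, K2, base, z0, k1, k2, hb, fun p _ t hz hd hd2 hne => ?_⟩
  have hf0 : f.eval t ≠ 0 := fun h0 => hd2 (by rw [h0]; exact dvd_zero _)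
  have hne' : (b * (a ^ 2 - 4 * b)).eval t ≠ 0 := by
    intro h0
    apply hne
    have e : f ^ 4 * b * ((f ^ 2 * a) ^ 2 - 4 * (f ^ 4 * b)) = f ^ 8 * (b * (a ^ 2 - 4 * b)) := by
      ring
    rw [e, eval_mul, h0, mul_zero]
  obtain ⟨l1, l2⟩ := h p t hz hd hd2 hne'
  have e0 : (f ^ 2 * a).eval t = (f.eval t) ^ 2 * a.eval t := by rw [eval_mul, eval_pow]
  have e1 : (f ^ 4 * b).eval t = (f.eval t) ^ 4 * b.eval t := by rw [eval_mul, eval_pow]
  refine ⟨?_, ?_⟩
  · rw [e0, e1]
    exact hS p _ _ (f.eval t) _ _ _ hf0 l1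
  · rw [e0, e1]
    have := hS p _ _ (f.eval t) _ _ _ hf0 l2
    have e2 : -2 * ((f.eval t) ^ 2 * a.eval t) = (f.eval t) ^ 2 * (-2 * a.eval t) := by ring
    have e3 : ((f.eval t) ^ 2 * a.eval t) ^ 2 - 4 * ((f.eval t) ^ 4 * b.eval t) =
        (f.eval t) ^ 4 * ((a.eval t) ^ 2 - 4 * b.eval t) := by ring
    rw [e2, e3]
    exact this

theorem s_PR : S_PR := by
  intro hS h1 h2 h3 h4 h5 h6 h7 h8
  have key : ∀ n : ℕ, ∀ a b f : ℤ[X], b.natDegree < n → PSet a b f → PolD a b f := by
    intro n
    induction n with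
    | zero => intro a b f h; omega
    | succ n ih =>
      intro a b f hn hs
      obtain ⟨h0, hf, hd⟩ := hs
      have hs : PSet a b f := ⟨h0, hf, hd⟩
      have hfp : Prime f := hf.prime
      have hf4 : ¬ f ∣ 4 := by
        intro h
        have h40 : (4 : ℤ[X]) ≠ 0 := by norm_num
        have := natDegree_le_of_dvd h h40
        have h5 : (4 : ℤ[X]).natDegree = 0 := natDegree_ofNat 4
        omega
      by_cases hA : f ∣ a
      · by_cases hB : f ∣ b
        · by_cases hB2 : f ^ 2 ∣ b
          · by_cases hA2 : f ^ 2 ∣ a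
            · by_cases hB3 : f ^ 3 ∣ b
              · by_cases hB4 : f ^ 4 ∣ b
                · obtain ⟨a', rfl⟩ := hA2
                  obtain ⟨b', rfl⟩ := hB4
                  have e : f ^ 4 * b' * ((f ^ 2 * a') ^ 2 - 4 * (f ^ 4 * b')) =
                      f ^ 8 * (b' * (a' ^ 2 - 4 * b')) := by ring
                  have h0' : b' * (a' ^ 2 - 4 * b') ≠ 0 := by
                    intro h
                    apply h0
                    rw [e, h, mul_zero]
                  have hb' : b' ≠ 0 := left_ne_zero_of_mul h0'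
                  have hdeg : (f ^ 4 * b').natDegree = 4 * f.natDegree + b'.natDegree := by
                    rw [natDegree_mul (pow_ne_zero 4 hfp.ne_zero) hb', natDegree_pow]
                  exact polD_scale hS (ih a' b' f (by omega) ⟨h0', hf, hd⟩)
                · exact h8 a b f hs hA2 hB3 hB4
              · refine h6 a b f hs hA hB2 hB3 fun hc => hB3 ?_
                have h9 : f ^ 3 ∣ a ^ 2 := by
                  obtain ⟨a', rfl⟩ := hA2
                  exact ⟨f * a' ^ 2, by ring⟩
                have h10 : f ^ 3 ∣ 4 * b := by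
                  have := dvd_sub h9 hc
                  have e : a ^ 2 - (a ^ 2 - 4 * b) = 4 * b := by ring
                  rwa [e] at this
                exact hfp.pow_dvd_of_dvd_mul_left 3 hf4 h10
            · by_cases hB3 : f ^ 3 ∣ b
              · exact h4 a b f hs hA hA2 hB3
              · by_cases hC3 : f ^ 3 ∣ a ^ 2 - 4 * b
                · exact h5 a b f hs hA hA2 hB2 hC3
                · exact h6 a b f hs hA hB2 hB3 hC3
          · exact h7 a b f hs hA hB hB2
        · refine h3 a b f hs hB fun hc => hB ?_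
          have h9 : f ∣ 4 * b := by
            have := dvd_sub (hA.mul_right a) hc
            have e : a * a - (a ^ 2 - 4 * b) = 4 * b := by ring
            rwa [e] at this
          exact (hfp.dvd_or_dvd h9).resolve_left hf4
      · by_cases hB : f ∣ b
        · exact h1 a b f hs hA hB
        · by_cases hC : f ∣ a ^ 2 - 4 * b
          · exact h2 a b f hs hA hB hC
          · exact h3 a b f hs hB hC
  intro a b f h0 hf hd
  exact key _ a b f (Nat.lt_succ_self _) ⟨h0, hf, hd⟩

end Pool.Agent.L7h55.EA
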